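import Pool.Agent.Helper81.XP.Pj

set_option autoImplicit false

open Finset
open scoped Pointwise LinearAlgebra.Projectivization

namespace Pool.Agent.Helper46.XP

open Pool.Agent.Helper81.XP

variable {K : Type} [Field K]

/-- upper unipotents -/
def uu (t : K) : SL K := ⟨!![1, t; 0, 1], by simp [Matrix.det_fin_two]⟩

/-- lower unipotents -/
def ll (t : K) : SL K := ⟨!![1, 0; t, 1], by simp [Matrix.det_fin_two]⟩

theorem uu_mul (s t : K) : uu s * uu t = uu (s + t) := by
  ext i j
  fin_cases i <;> fin_cases j <;>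
    simp [uu, Matrix.SpecialLinearGroup.coe_mul, Matrix.mul_apply, Fin.sum_univ_two, add_comm]

theorem ll_mul (s t : K) : ll s * ll t = ll (s + t) := by
  ext i j
  fin_cases i <;> fin_cases j <;>
    simp [ll, Matrix.SpecialLinearGroup.coe_mul, Matrix.mul_apply, Fin.sum_univ_two, add_comm]

theorem uu_zero : (uu (0 : K)) = 1 := by
  ext i j
  fin_cases i <;> fin_cases j <;> simp [uu]

theorem ll_zero : (ll (0 : K)) = 1 := by
  ext i j
  fin_cases i <;> fin_cases j <;> simp [ll]

theorem uu_pow (t : K) (n : ℕ) : uu t ^ n = uu (n * t) := by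
  induction n with
  | zero => simp [uu_zero]
  | succ n ih => rw [pow_succ, ih, uu_mul]; congr 1; push_cast; ring

theorem ll_pow (t : K) (n : ℕ) : ll t ^ n = ll (n * t) := by
  induction n with
  | zero => simp [ll_zero]
  | succ n ih => rw [pow_succ, ih, ll_mul]; congr 1; push_cast; ring

theorem decomp (g : SL K) (hc : (g : Matrix (Fin 2) (Fin 2) K) 1 0 ≠ 0) :
    g = uu (((g : Matrix (Fin 2) (Fin 2) K) 0 0 - 1) / (g : Matrix (Fin 2) (Fin 2) K) 1 0) *
      ll ((g : Matrix (Fin 2) (Fin 2) K) 1 0) *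
      uu (((g : Matrix (Fin 2) (Fin 2) K) 1 1 - 1) / (g : Matrix (Fin 2) (Fin 2) K) 1 0) := by
  have hd := det_eq g
  ext i j
  fin_cases i <;> fin_cases j
  · simp [uu, ll, Matrix.SpecialLinearGroup.coe_mul, Matrix.mul_apply, Fin.sum_univ_two, hc]
  · simp [uu, ll, Matrix.SpecialLinearGroup.coe_mul, Matrix.mul_apply, Fin.sum_univ_two, hc]
    field_simp
    linear_combination -hd
  · simp [uu, ll, Matrix.SpecialLinearGroup.coe_mul, Matrix.mul_apply, Fin.sum_univ_two]
  · simp [uu, ll, Matrix.SpecialLinearGroup.coe_mul, Matrix.mul_apply, Fin.sum_univ_two]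
    field_simp
    ring

theorem gen_top (H : Subgroup (SL K)) (h1 : ∀ t : K, uu t ∈ H) (h2 : ∀ t : K, ll t ∈ H) :
    H = ⊤ := by
  rw [Subgroup.eq_top_iff']
  have key : ∀ g : SL K, (g : Matrix (Fin 2) (Fin 2) K) 1 0 ≠ 0 → g ∈ H := by
    intro g hc
    rw [decomp g hc]
    exact H.mul_mem (H.mul_mem (h1 _) (h2 _)) (h1 _)
  intro g
  by_cases hc : (g : Matrix (Fin 2) (Fin 2) K) 1 0 = 0
  · have hd := det_eq g
    have h3 : g * ll 1 ∈ H := by
      apply key
      simp [ll, Matrix.SpecialLinearGroup.coe_mul, Matrix.mul_apply, Fin.sum_univ_two, hc]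
      intro h4
      rw [hc, h4] at hd
      simp at hd
    exact (H.mul_mem_cancel_right (h2 1)).mp h3
  · exact key g hc

end Pool.Agent.Helper46.XP
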