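import Pool.Agent.Helper81.XP.StB

set_option autoImplicit false

open Finset
open scoped Pointwise LinearAlgebra.Projectivization

namespace Pool.Agent.Helper46.XP

open Pool.Agent.Helper81.XP


theorem tr_eq' {R : Type} [CommRing R] (g : SL R) :
    tr g = (g : Matrix (Fin 2) (Fin 2) R) 0 0 + (g : Matrix (Fin 2) (Fin 2) R) 1 1 := by
  rw [tr, Matrix.trace_fin_two]

theorem exists_comm_word (hW : ST_WDL) (m1 m2 : ℕ) (w1 : Fin m1 → Fin 5) (w2 : Fin m2 → Fin 5)
    (h : 4 * m1 + 4 * m2 ≤ 32) : ∃ w : Fin 32 → Fin 5, ∀ (Γ : Type) [Group Γ] (a b : Γ),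
      wd a b w = ct (wd a b w1) (wd a b w2 * wd a b w1 * (wd a b w2)⁻¹) := by
  obtain ⟨hm, hi, hmono, -, -, hφ⟩ := hW (FreeGroup (Fin 2)) (FreeGroup.of 0) (FreeGroup.of 1)
  have key : IsWd (FreeGroup.of (0 : Fin 2)) (FreeGroup.of 1) 32
      (ct (wd (FreeGroup.of (0 : Fin 2)) (FreeGroup.of 1) w1)
        (wd (FreeGroup.of (0 : Fin 2)) (FreeGroup.of 1) w2 *
          wd (FreeGroup.of (0 : Fin 2)) (FreeGroup.of 1) w1 *
          (wd (FreeGroup.of (0 : Fin 2)) (FreeGroup.of 1) w2)⁻¹)) := by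
    set X := wd (FreeGroup.of (0 : Fin 2)) (FreeGroup.of 1) w1 with hX
    set s := wd (FreeGroup.of (0 : Fin 2)) (FreeGroup.of 1) w2 with hs
    have iX : IsWd (FreeGroup.of (0 : Fin 2)) (FreeGroup.of 1) m1 X := ⟨w1, rfl⟩
    have is : IsWd (FreeGroup.of (0 : Fin 2)) (FreeGroup.of 1) m2 s := ⟨w2, rfl⟩
    have iX' := hi _ _ iX
    have is' := hi _ _ is
    have e : ct X (s * X * s⁻¹) = X * s * X * s⁻¹ * X⁻¹ * s * X⁻¹ * s⁻¹ := by
      simp only [ct]; group
    rw [e]
    have h1 := hm _ _ _ _ (hm _ _ _ _ (hm _ _ _ _ (hm _ _ _ _ (hm _ _ _ _ (hm _ _ _ _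
      (hm _ _ _ _ iX is) iX) is') iX') is) iX') is'
    exact hmono _ _ _ (by omega) h1
  obtain ⟨w, hw⟩ := key
  refine ⟨w, fun Γ _ a b => ?_⟩
  obtain ⟨-, -, -, -, -, hφ'⟩ := hW (FreeGroup (Fin 2)) (FreeGroup.of 0) (FreeGroup.of 1)
  have hf := fun n => (hφ' Γ (FreeGroup.lift ![a, b]) n).1
  have e0 : (FreeGroup.lift ![a, b]) (FreeGroup.of (0 : Fin 2)) = a := by simp
  have e1 : (FreeGroup.lift ![a, b]) (FreeGroup.of (1 : Fin 2)) = b := by simp
  simp only [e0, e1] at hf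
  rw [← hf 32 w, hw, ct, map_mul, map_mul, map_mul, map_inv, map_inv, map_mul, map_mul, map_inv,
    hf, hf, ct]

/-- valuations of products of matrices -/
theorem val_list {K : Type} [Field K] (O : ValuationSubring K) (M : O.ValueGroup) (hM : 1 ≤ M)
    (l : List (SL K)) (hl : ∀ g ∈ l, ∀ i j, O.valuation ((g : Matrix (Fin 2) (Fin 2) K) i j) ≤ M) :
    ∀ i j, O.valuation (((l.prod : SL K) : Matrix (Fin 2) (Fin 2) K) i j) ≤ M ^ l.length := by
  induction l with
  | nil =>
    intro i j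
    simp only [List.prod_nil, List.length_nil, pow_zero, Matrix.SpecialLinearGroup.coe_one]
    by_cases h : i = j
    · subst h; simp
    · rw [Matrix.one_apply_ne h, map_zero]
      exact zero_le_one
  | cons g l ih =>
    intro i j
    have ih' := ih fun x hx => hl x (List.mem_cons_of_mem _ hx)
    have hg := hl g List.mem_cons_self
    rw [List.prod_cons, Matrix.SpecialLinearGroup.coe_mul, Matrix.mul_apply, Fin.sum_univ_two,
      List.length_cons, pow_succ']
    refine (O.valuation.map_add _ _).trans (max_le ?_ ?_)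
    · rw [map_mul]
      exact mul_le_mul' (hg i 0) (ih' 0 j)
    · rw [map_mul]
      exact mul_le_mul' (hg i 1) (ih' 1 j)

theorem val_letter {K : Type} [Field K] (P : Fin 3 → K) (hP : P 2 ≠ 0) (O : ValuationSubring K)
    (M : O.ValueGroup) (hM : 1 ≤ M) (h0 : O.valuation (P 0) ≤ M) (h1 : O.valuation (P 1) ≤ M)
    (h2 : O.valuation (P 2) ≤ M) (h3 : O.valuation (P 2)⁻¹ ≤ M) (a : Fin 5) :
    ∀ i j, O.valuation (((lt (vA P) (vB P) a : SL K) : Matrix (Fin 2) (Fin 2) K) i j) ≤ M := by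
  have z : (0 : O.ValueGroup) ≤ M := zero_le'
  have o1 : O.valuation (1 : K) ≤ M := by rw [map_one]; exact hM
  have oz : O.valuation (0 : K) ≤ M := by rw [map_zero]; exact z
  have on : O.valuation (-1 : K) ≤ M := by rw [Valuation.map_neg]; exact o1
  have h3' : O.valuation (-(P 2)⁻¹) ≤ M := by rw [Valuation.map_neg]; exact h3
  have h2' : O.valuation (-(P 2)) ≤ M := by rw [Valuation.map_neg]; exact h2
  have hA : (((vA P : SL K)) : Matrix (Fin 2) (Fin 2) K) = !![P 0, -1; 1, 0] := rfl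
  have hB : (((vB P : SL K)) : Matrix (Fin 2) (Fin 2) K) = !![0, P 2; -(P 2)⁻¹, P 1] := by
    unfold vB mB
    rw [dif_pos hP]
  have hA' : (((vA P : SL K)⁻¹ : SL K) : Matrix (Fin 2) (Fin 2) K) = !![0, 1; -1, P 0] := by
    rw [Matrix.SpecialLinearGroup.coe_inv, hA, Matrix.adjugate_fin_two_of]
    simp
  have hB' : (((vB P : SL K)⁻¹ : SL K) : Matrix (Fin 2) (Fin 2) K) =
      !![P 1, -P 2; (P 2)⁻¹, 0] := by
    rw [Matrix.SpecialLinearGroup.coe_inv, hB, Matrix.adjugate_fin_two_of]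
    simp
  intro i j
  fin_cases a
  · change O.valuation (((1 : SL K) : Matrix (Fin 2) (Fin 2) K) i j) ≤ M
    fin_cases i <;> fin_cases j <;> simp [hM]
  · change O.valuation (((vA P : SL K) : Matrix (Fin 2) (Fin 2) K) i j) ≤ M
    rw [hA]
    fin_cases i <;> fin_cases j
    · exact h0
    · exact on
    · exact o1
    · exact oz
  · change O.valuation ((((vA P)⁻¹ : SL K) : Matrix (Fin 2) (Fin 2) K) i j) ≤ M
    rw [hA']
    fin_cases i <;> fin_cases j
    · exact oz
    · exact o1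
    · exact on
    · exact h0
  · change O.valuation (((vB P : SL K) : Matrix (Fin 2) (Fin 2) K) i j) ≤ M
    rw [hB]
    fin_cases i <;> fin_cases j
    · exact oz
    · exact h2
    · exact h3'
    · exact h1
  · change O.valuation ((((vB P)⁻¹ : SL K) : Matrix (Fin 2) (Fin 2) K) i j) ≤ M
    rw [hB']
    fin_cases i <;> fin_cases j
    · exact h1
    · exact h2'
    · exact h3
    · exact oz

theorem st_KPL (hPW : ST_PWD) (hW : ST_WDL) : ST_KPL := by
  intro k _ m1 m2 w1 w2 h32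
  obtain ⟨w, hw⟩ := exists_comm_word hW m1 m2 w1 w2 h32
  obtain ⟨F, -, hF⟩ := hPW k 32 w
  refine ⟨F 0 0 + F 1 1 - MvPolynomial.C 2 * MvPolynomial.X 2 ^ 32, fun K _ _ P hP => ?_⟩
  have e : MvPolynomial.aeval P (F 0 0 + F 1 1 - MvPolynomial.C 2 * MvPolynomial.X 2 ^ 32) =
      P 2 ^ 32 * (tr (wd (vA P) (vB P) w) - 2) := by
    rw [map_sub, map_add, map_mul, map_pow, MvPolynomial.aeval_X, ← hF K P hP, ← hF K P hP, tr_eq']
    have : MvPolynomial.aeval P (MvPolynomial.C (2 : k) : MvPolynomial (Fin 3) k) = (2 : K) := by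
      rw [MvPolynomial.aeval_C]
      exact map_ofNat (algebraMap k K) 2
    rw [this]
    ring
  refine ⟨?_, ?_⟩
  · rw [e, hw]
  · intro O M hM h0 h1 h2 h3
    rw [e, map_mul, map_pow]
    have hM' : (64 : ℕ) = 32 + 32 := rfl
    rw [hM', pow_add]
    refine mul_le_mul' (pow_le_pow_left₀ zero_le' h2 32) ?_
    have hent := val_list O M hM (List.ofFn fun i => lt (vA P) (vB P) (w i)) (by
      intro g hg
      rw [List.mem_ofFn] at hg
      obtain ⟨i, rfl⟩ := hg
      exact val_letter P hP O M hM h0 h1 h2 h3 (w i))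
    rw [List.length_ofFn] at hent
    have h1M : (1 : O.ValueGroup) ≤ M ^ 32 := one_le_pow₀ hM
    have h2' : O.valuation (2 : K) ≤ M ^ 32 := by
      have : O.valuation (1 + 1 : K) ≤ 1 :=
        (O.valuation.map_add 1 1).trans (by rw [map_one, max_self])
      have h4 : (1 + 1 : K) = 2 := by norm_num
      rw [h4] at this
      exact this.trans h1M
    refine (O.valuation.map_sub _ _).trans (max_le ?_ h2')
    rw [tr_eq']
    exact (O.valuation.map_add _ _).trans (max_le (hent 0 0) (hent 1 1))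

end Pool.Agent.Helper46.XP
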