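import Pool.Agent.Helper81.XP.StB

set_option autoImplicit false

open Finset
open scoped Pointwise LinearAlgebra.Projectivization

namespace Pool.Agent.Helper46.XP

open Pool.Agent.Helper81.XP

theorem map_vA {K : Type} [Field K] (σ : K →+* K) (P : Fin 3 → K) :
    Matrix.SpecialLinearGroup.map σ (vA P) = vA fun i => σ (P i) := by
  ext i j
  fin_cases i <;> fin_cases j <;> simp [vA, mA]

theorem map_vB {K : Type} [Field K] (σ : K →+* K) (P : Fin 3 → K) (h : P 2 ≠ 0) :
    Matrix.SpecialLinearGroup.map σ (vB P) = vB fun i => σ (P i) := by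
  have h' : σ (P 2) ≠ 0 := by
    intro h0
    exact h ((map_eq_zero σ).mp h0)
  unfold vB mB
  rw [dif_pos h, dif_pos h']
  ext i j
  fin_cases i <;> fin_cases j <;> simp

theorem st_NCP (hU : ST_UUU) (hL : ST_L2A) (hR : ST_UPR) (hW : ST_WDL) : ST_NCP := by
  classical
  intro k _ P hP n
  obtain ⟨σ, hσ⟩ := hU k P hP
  have hP2 : P 2 ≠ 0 := hP.1.1
  have hrr : (0 : ℝ) ≤ rr := by
    unfold rr LL
    norm_num
  have hNC : NC (vA fun i => σ (P i)) (vB fun i => σ (P i)) n (rr ^ n) := by
    intro ξ ξ'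
    have h := hL (SL (Om k)) (Pt (Om k)) (vA fun i => σ (P i)) (vB fun i => σ (P i)) LL
      (by unfold LL; norm_num) hσ n ξ ξ'
    unfold rr
    convert h using 3
  have h := hR (Om k) _ _ n (rr ^ n) (pow_nonneg hrr n) hNC
  set φ : SL (Om k) →* SL (Om k) :=
    Matrix.SpecialLinearGroup.map (σ : Om k →+* Om k) with hφ
  have hinj : Function.Injective φ := by
    intro a b hab
    ext i j
    have h1 := congrArg (fun g : SL (Om k) => (g : Matrix (Fin 2) (Fin 2) (Om k)) i j) hab
    simp only [hφ, Matrix.SpecialLinearGroup.map_apply_coe, RingHom.mapMatrix_apply,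
      Matrix.map_apply] at h1
    exact σ.injective h1
  have e : ∀ u : Fin 4 → Fin n → Fin 5, dw (vA P) (vB P) u = 1 ↔
      dw (vA fun i => σ (P i)) (vB fun i => σ (P i)) u = 1 := by
    intro u
    have h1 := ((hW (SL (Om k)) (vA P) (vB P)).2.2.2.2.2 (SL (Om k)) φ n).2 u
    have h2 : φ (vA P) = vA fun i => σ (P i) := map_vA (σ : Om k →+* Om k) P
    have h3 : φ (vB P) = vB fun i => σ (P i) := map_vB (σ : Om k →+* Om k) P hP2
    rw [h2, h3] at h1
    rw [← h1]
    constructor
    · intro h4; rw [h4, map_one]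
    · intro h4
      apply hinj
      rw [h4, map_one]
  have e2 : (univ : Finset (Fin 4 → Fin n → Fin 5)).filter (fun u => dw (vA P) (vB P) u = 1) =
      (univ : Finset (Fin 4 → Fin n → Fin 5)).filter
        (fun u => dw (vA fun i => σ (P i)) (vB fun i => σ (P i)) u = 1) :=
    Finset.filter_congr fun u _ => e u
  rw [e2]
  convert h using 3

end Pool.Agent.Helper46.XP
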