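import Pool.Agent.Helper81.XP.StA
import Pool.Agent.Helper46.XP.Gen

set_option autoImplicit false

open Finset
open scoped Pointwise LinearAlgebra.Projectivization

namespace Pool.Agent.Helper46.XP

open Pool.Agent.Helper81.XP

theorem st_PRF : ST_PRF := by
  intro p hp h5 N hN
  haveI : Fact p.Prime := ⟨hp⟩
  have h3 : (3 : ZMod p) ≠ 0 := by
    intro h
    have : ((3 : ℕ) : ZMod p) = 0 := by exact_mod_cast h
    rw [ZMod.natCast_eq_zero_iff] at this
    have := Nat.le_of_dvd (by norm_num) this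
    omega
  have h2 : (2 : ZMod p) ≠ 0 := by
    intro h
    have : ((2 : ℕ) : ZMod p) = 0 := by exact_mod_cast h
    rw [ZMod.natCast_eq_zero_iff] at this
    have := Nat.le_of_dvd (by norm_num) this
    omega
  let d : SL (ZMod p) := ⟨!![2, 0; 0, 2⁻¹], by simp [Matrix.det_fin_two, h2]⟩
  have hd : (d⁻¹ : SL (ZMod p)) = ⟨!![2⁻¹, 0; 0, 2], by simp [Matrix.det_fin_two, h2]⟩ := by
    rw [inv_eq_iff_mul_eq_one]
    ext i j
    fin_cases i <;> fin_cases j <;>
      simp [d, Matrix.SpecialLinearGroup.coe_mul, Matrix.mul_apply, Fin.sum_univ_two, h2]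
  have hu : ∀ t : ZMod p, (uu t)⁻¹ = uu (-t) := by
    intro t
    rw [inv_eq_iff_mul_eq_one, uu_mul, add_neg_cancel, uu_zero]
  have hl : ∀ t : ZMod p, (ll t)⁻¹ = ll (-t) := by
    intro t
    rw [inv_eq_iff_mul_eq_one, ll_mul, add_neg_cancel, ll_zero]
  refine gen_top N ?_ ?_
  · intro t
    have e : ct d (uu (t / 3)) = uu t := by
      rw [ct, hd, hu]
      ext i j
      fin_cases i <;> fin_cases j
      · simp [d, uu, Matrix.SpecialLinearGroup.coe_mul, Matrix.mul_apply, Fin.sum_univ_two, h2]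
      · simp [d, uu, Matrix.SpecialLinearGroup.coe_mul, Matrix.mul_apply, Fin.sum_univ_two, h2]
        field_simp
        ring
      · simp [d, uu, Matrix.SpecialLinearGroup.coe_mul, Matrix.mul_apply, Fin.sum_univ_two]
      · simp [d, uu, Matrix.SpecialLinearGroup.coe_mul, Matrix.mul_apply, Fin.sum_univ_two, h2]
    rw [← e]
    exact hN _ _
  · intro t
    have e : ct (d⁻¹) (ll (t / 3)) = ll t := by
      rw [ct, inv_inv, hd, hl]
      ext i j
      fin_cases i <;> fin_cases j
      · simp [d, ll, Matrix.SpecialLinearGroup.coe_mul, Matrix.mul_apply, Fin.sum_univ_two, h2]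
      · simp [d, ll, Matrix.SpecialLinearGroup.coe_mul, Matrix.mul_apply, Fin.sum_univ_two]
      · simp [d, ll, Matrix.SpecialLinearGroup.coe_mul, Matrix.mul_apply, Fin.sum_univ_two, h2]
        field_simp
        ring
      · simp [d, ll, Matrix.SpecialLinearGroup.coe_mul, Matrix.mul_apply, Fin.sum_univ_two, h2]
    rw [← e]
    exact hN _ _

end Pool.Agent.Helper46.XP
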