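import Pool.Agent.Helper81.XP.StA
import Pool.Agent.Helper46.XP.Gen

set_option autoImplicit false

open Finset
open scoped Pointwise LinearAlgebra.Projectivization

namespace Pool.Agent.Helper46.XP

open Pool.Agent.Helper81.XP

/-- elements of order `p` have trace 2 -/
theorem tr_of_pow (p : ℕ) [Fact p.Prime] (u : SL (ZMod p)) (h : u ^ p = 1) :
    ((u : Matrix (Fin 2) (Fin 2) (ZMod p)) - 1).det = 0 := by
  have h1 : ((u : Matrix (Fin 2) (Fin 2) (ZMod p)) - 1) ^ p = 0 := by
    have h2 := sub_pow_char_of_commute (p := p) (R := Matrix (Fin 2) (Fin 2) (ZMod p))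
      (x := (u : Matrix (Fin 2) (Fin 2) (ZMod p))) (y := 1) (Commute.one_right _)
    rw [h2, one_pow, ← Matrix.SpecialLinearGroup.coe_pow, h]
    simp
  have h3 : ((u : Matrix (Fin 2) (Fin 2) (ZMod p)) - 1).det ^ p = 0 := by
    rw [← Matrix.det_pow, h1, Matrix.det_zero]
  exact pow_eq_zero_iff (Nat.Prime.ne_zero Fact.out) |>.mp h3

theorem exists_nat_mul (p : ℕ) [Fact p.Prime] (s t : ZMod p) (hs : s ≠ 0) :
    ∃ n : ℕ, (n : ZMod p) * s = t := by
  refine ⟨(t / s).val, ?_⟩
  rw [ZMod.natCast_val, ZMod.cast_id', id, div_mul_cancel₀ t hs]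

theorem st_SBU : ST_SBU := by
  intro p _ H hH hp
  obtain ⟨⟨u, huH⟩, hu⟩ := exists_prime_orderOf_dvd_card' (G := H) p hp
  have hup : u ^ p = 1 := by
    have := pow_orderOf_eq_one (⟨u, huH⟩ : H)
    rw [hu] at this
    exact congrArg Subtype.val this
  have hu1 : u ≠ 1 := by
    intro h
    have h2 : (⟨u, huH⟩ : H) = 1 := Subtype.ext h
    rw [h2, orderOf_one] at hu
    exact (Nat.Prime.ne_one Fact.out) hu.symm
  -- a fixed vector
  obtain ⟨v, hv, hv2⟩ := Matrix.exists_mulVec_eq_zero_iff.mpr (tr_of_pow p u hup)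
  have hfix : u • (Projectivization.mk (ZMod p) v hv : Pt (ZMod p)) =
      Projectivization.mk (ZMod p) v hv := by
    rw [smul_pt_fix_iff]
    refine ⟨1, ?_⟩
    rw [one_smul]
    rw [Matrix.sub_mulVec, Matrix.one_mulVec] at hv2
    exact sub_eq_zero.mp hv2
  obtain ⟨c, hc⟩ := exists_move1 (Projectivization.mk (ZMod p) v hv : Pt (ZMod p))
  -- the conjugated unipotent element
  set u' : SL (ZMod p) := c * u * c⁻¹ with hu'
  have hf' : u' • e1 (ZMod p) = e1 (ZMod p) := by
    rw [← hc, hu', conj_smul_eq_iff]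
    exact hfix
  have h10 : (u' : Matrix (Fin 2) (Fin 2) (ZMod p)) 1 0 = 0 := (smul_e1_eq_e1 u').mp hf'
  have hup' : u' ^ p = 1 := by
    rw [hu', conj_pow, hup, mul_one, mul_inv_cancel]
  have hdet := tr_of_pow p u' hup'
  rw [Matrix.det_fin_two] at hdet
  simp only [Matrix.sub_apply, Matrix.one_apply_eq, h10] at hdet
  have hde := det_eq u'
  rw [h10, mul_zero, sub_zero] at hde
  have h00 : (u' : Matrix (Fin 2) (Fin 2) (ZMod p)) 0 0 = 1 := by
    have e : ((u' : Matrix (Fin 2) (Fin 2) (ZMod p)) 0 0 - 1) ^ 2 = 0 := by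
      have e2 : ((u' : Matrix (Fin 2) (Fin 2) (ZMod p)) 0 0 - 1) *
          ((u' : Matrix (Fin 2) (Fin 2) (ZMod p)) 1 1 - 1) = 0 := by
        have h01' : (1 : Matrix (Fin 2) (Fin 2) (ZMod p)) 1 0 = 0 := by simp
        rw [h01'] at hdet
        linear_combination hdet
      linear_combination ((u' : Matrix (Fin 2) (Fin 2) (ZMod p)) 0 0 - 1) * hde -
        (u' : Matrix (Fin 2) (Fin 2) (ZMod p)) 0 0 * e2
    exact sub_eq_zero.mp (pow_eq_zero_iff (two_ne_zero) |>.mp e)
  have h11 : (u' : Matrix (Fin 2) (Fin 2) (ZMod p)) 1 1 = 1 := by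
    rw [h00, one_mul] at hde
    exact hde
  set s : ZMod p := (u' : Matrix (Fin 2) (Fin 2) (ZMod p)) 0 1 with hs
  have huu : u' = uu s := by
    ext i j
    fin_cases i <;> fin_cases j <;> simp [uu, h00, h11, h10, hs]
  have hs0 : s ≠ 0 := by
    intro h
    apply hu1
    rw [h, uu_zero, hu'] at huu
    have := congrArg (fun g => c⁻¹ * g * c) huu
    simpa [mul_assoc] using this
  set H' : Subgroup (SL (ZMod p)) := H.comap (MulAut.conj c⁻¹).toMonoidHom with hH'
  have mem' : ∀ g, g ∈ H' ↔ c⁻¹ * g * c ∈ H := by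
    intro g
    rw [hH', Subgroup.mem_comap]
    simp
  have hu'H : u' ∈ H' := by
    rw [mem', hu']
    have : c⁻¹ * (c * u * c⁻¹) * c = u := by group
    rw [this]
    exact huH
  have hallu : ∀ t : ZMod p, uu t ∈ H' := by
    intro t
    obtain ⟨n, hn⟩ := exists_nat_mul p s t hs0
    rw [← hn, ← uu_pow, ← huu]
    exact H'.pow_mem hu'H n
  by_cases hall : ∀ g ∈ H', (g : Matrix (Fin 2) (Fin 2) (ZMod p)) 1 0 = 0
  · refine ⟨(io p c)⁻¹ • e1 _, fun h hh => ?_⟩
    have h1 : c * h * c⁻¹ ∈ H' := by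
      rw [mem']
      have : c⁻¹ * (c * h * c⁻¹) * c = h := by group
      rw [this]
      exact hh
    have h2 := hall _ h1
    have h3 : (io p (c * h * c⁻¹)) • e1 (AlgebraicClosure (ZMod p)) =
        e1 (AlgebraicClosure (ZMod p)) := by
      rw [smul_e1_eq_e1]
      have : ((io p (c * h * c⁻¹) : SL (AlgebraicClosure (ZMod p))) :
          Matrix (Fin 2) (Fin 2) (AlgebraicClosure (ZMod p))) 1 0 =
          algebraMap (ZMod p) (AlgebraicClosure (ZMod p))
            (((c * h * c⁻¹ : SL (ZMod p)) : Matrix (Fin 2) (Fin 2) (ZMod p)) 1 0) := rfl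
      rw [this, h2, map_zero]
    rw [map_mul, map_mul, map_inv] at h3
    rw [eq_inv_smul_iff, smul_smul, smul_smul]
    exact h3
  · exfalso
    push Not at hall
    obtain ⟨g, hg, hg0⟩ := hall
    apply hH
    have hll : ll ((g : Matrix (Fin 2) (Fin 2) (ZMod p)) 1 0) ∈ H' := by
      have hd := decomp g hg0
      rw [hd] at hg
      have h4 := (H'.mul_mem_cancel_right (hallu _)).mp hg
      exact (H'.mul_mem_cancel_left (hallu _)).mp h4
    have hall2 : ∀ t : ZMod p, ll t ∈ H' := by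
      intro t
      obtain ⟨n, hn⟩ := exists_nat_mul p _ t hg0
      rw [← hn, ← ll_pow]
      exact H'.pow_mem hll n
    have htop := gen_top H' hallu hall2
    rw [Subgroup.eq_top_iff'] at htop ⊢
    intro x
    have := htop (c * x * c⁻¹)
    rw [mem'] at this
    have e : c⁻¹ * (c * x * c⁻¹) * c = x := by group
    rwa [e] at this

end Pool.Agent.Helper46.XP
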